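import Pool.Agent.Helper48.OF.Defs
import Pool.Agent.Helper71.AA.Div

/-!
# The combinatorics of pairs and triples
-/

set_option autoImplicit false

namespace Pool.Agent.Helper48.OF

open Module Polynomial Pool.Agent.Helper71.AA Pool.Agent.Helper71.AA.Div

variable {W : Type*} [AddCommGroup W] [Module ℂ W] {I : Type*} [LinearOrder I] {ι : Type*}

/-- A divisor pair or an elliptic triple. -/
def IsPiece (q : ℕ) (t : ι → ℤ) (lam : I → ℂ) (r : Finset I) : Prop :=
  (r.card = 2 ∧ ∃ m : ℕ, 0 < m ∧ (∏ i ∈ r, lam i) ^ m = (q : ℂ) ^ m) ∨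
    (r.card = 3 ∧ ∃ j, (∏ i ∈ r, lam i) ^ 2 - t j * q * (∏ i ∈ r, lam i) + (q : ℂ) ^ 3 = 0)

/-- `s` contains `ν` disjoint pieces. -/
def MatchE (q : ℕ) (t : ι → ℤ) (lam : I → ℂ) : ℕ → Finset I → Prop
  | 0, _ => True
  | ν + 1, s => ∃ r ⊆ s, IsPiece q t lam r ∧ MatchE q t lam ν (s \ r)

lemma matchE_union {q : ℕ} {t : ι → ℤ} {lam : I → ℂ} {ν : ℕ} {s r : Finset I}
    (hs : MatchE q t lam ν s) (hr : IsPiece q t lam r) (hd : Disjoint r s) :
    MatchE q t lam (ν + 1) (r ∪ s) := by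
  refine ⟨r, Finset.subset_union_left, hr, ?_⟩
  have : (r ∪ s) \ r = s := by
    rw [Finset.union_sdiff_left]
    exact Finset.sdiff_eq_self_of_disjoint hd.symm
  rw [this]
  exact hs

variable (b : Basis I ℂ W)

/-- The products of `ν` classes. -/
def prodSet (q : ℕ) (Φ : Module.End ℂ W) (t : ι → ℤ) (ν : ℕ) : Set (ExteriorAlgebra ℂ W) :=
  {x | ∃ (d : Fin ν → ExteriorAlgebra ℂ W)
    (w : ExteriorAlgebra ℂ W), (∀ k, IsDivisorClass q Φ (d k) ∨
      ∃ j, d k ∈ ellipticPart q Φ (t j)) ∧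
      x = (List.ofFn d).prod * w}

lemma mul_mem_span {q : ℕ} {Φ : Module.End ℂ W} {t : ι → ℤ} {ν : ℕ} {d x : ExteriorAlgebra ℂ W}
    (hd : IsDivisorClass q Φ d ∨ ∃ j, d ∈ ellipticPart q Φ (t j))
    (hx : x ∈ Submodule.span ℂ (prodSet q Φ t ν)) :
    d * x ∈ Submodule.span ℂ (prodSet q Φ t (ν + 1)) := by
  induction hx using Submodule.span_induction with
  | mem x hx =>
    obtain ⟨ds, w, hds, rfl⟩ := hx
    refine Submodule.subset_span ⟨Fin.cons d ds, w, ?_, ?_⟩
    · intro k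
      refine Fin.cases ?_ ?_ k
      · exact hd
      · intro k
        simpa using hds k
    · rw [List.ofFn_succ, List.prod_cons]
      simp [mul_assoc]
  | zero => rw [mul_zero]; exact Submodule.zero_mem _
  | add x y _ _ hx hy => rw [mul_add]; exact Submodule.add_mem _ hx hy
  | smul c x _ hx => rw [mul_smul_comm]; exact Submodule.smul_mem _ c hx

/-- The equation of the elliptic part on the monomials. -/
lemma mem_ellipticPart {q : ℕ} {Φ : Module.End ℂ W} {lam : I → ℂ}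
    (hb : ∀ i, Φ (b i) = lam i • b i) {t : ℤ} {s : Finset I} (hs : s.card = 3)
    (h : (∏ i ∈ s, lam i) ^ 2 - t * q * (∏ i ∈ s, lam i) + (q : ℂ) ^ 3 = 0) :
    b.ExteriorAlgebra s ∈ ellipticPart q Φ t := by
  refine ⟨?_, ?_⟩
  · have := basis_mem b s
    rwa [hs] at this
  · rw [SetLike.mem_coe, LinearMap.mem_ker]
    simp only [LinearMap.add_apply, LinearMap.sub_apply, LinearMap.comp_apply,
      LinearMap.smul_apply, AlgHom.toLinearMap_apply, LinearMap.id_apply,
      map_basis b Φ lam hb, map_smul, smul_smul]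
    rw [← sub_smul, ← add_smul]
    rw [show (∏ i ∈ s, lam i) * (∏ i ∈ s, lam i) - ↑t * ↑q * ∏ i ∈ s, lam i + (q : ℂ) ^ 3 = 0 by
      rw [← h]; ring]
    rw [zero_smul]

lemma ellipticPart_le {q : ℕ} {Φ : Module.End ℂ W} {lam : I → ℂ}
    (hb : ∀ i, Φ (b i) = lam i • b i) (t : ι → ℤ) (j : ι) :
    ellipticPart q Φ (t j) ≤ Submodule.span ℂ (b.ExteriorAlgebra '' {s | IsPiece q t lam s}) := by
  rintro x ⟨hx1, hx2⟩
  rw [Basis.mem_span_image]
  intro s hs
  have hs' : b.ExteriorAlgebra.repr x s ≠ 0 := by simpa using hs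
  refine Or.inr ⟨?_, j, ?_⟩
  · have h1 := mem_span_of_mem_pow b hx1
    rw [Basis.mem_span_image] at h1
    exact h1 hs
  · have hx3 : ExteriorAlgebra.map Φ (ExteriorAlgebra.map Φ x) -
        ((t j : ℂ) * q) • ExteriorAlgebra.map Φ x + (q : ℂ) ^ 3 • x = 0 := by
      have := LinearMap.mem_ker.1 hx2
      simpa using this
    have h1 := congrArg (fun z => b.ExteriorAlgebra.repr z s) hx3
    simp only [map_add, map_sub, map_smul, Finsupp.add_apply, Finsupp.sub_apply,
      Finsupp.smul_apply, repr_map b Φ lam hb, smul_eq_mul, map_zero, Finsupp.zero_apply] at h1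
    set μ := ∏ i ∈ s, lam i with hμ
    have h3 : (μ ^ 2 - t j * q * μ + (q : ℂ) ^ 3) * b.ExteriorAlgebra.repr x s = 0 := by
      rw [← h1]; ring
    exact (mul_eq_zero.1 h3).resolve_right hs'

lemma divisor_mem {q : ℕ} {Φ : Module.End ℂ W} {lam : I → ℂ}
    (hb : ∀ i, Φ (b i) = lam i • b i) (t : ι → ℤ) {d : ExteriorAlgebra ℂ W}
    (hd : IsDivisorClass q Φ d) :
    d ∈ Submodule.span ℂ (b.ExteriorAlgebra '' {s | IsPiece q t lam s}) := by
  obtain ⟨hd2, m, hm, hdm⟩ := hd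
  have hd3 := eigen_mem b (Φ ^ m) (fun i => lam i ^ m) (fun i => pow_apply_basis b hb m i)
    hd2 hdm
  refine Submodule.span_mono ?_ hd3
  rintro _ ⟨s, ⟨h1, h2⟩, rfl⟩
  refine ⟨s, Or.inl ⟨h1, m, hm, ?_⟩, rfl⟩
  rw [← h2, Finset.prod_pow]

lemma piece_class {q : ℕ} {Φ : Module.End ℂ W} {lam : I → ℂ}
    (hb : ∀ i, Φ (b i) = lam i • b i) {t : ι → ℤ} {r : Finset I} (hr : IsPiece q t lam r) :
    IsDivisorClass q Φ (b.ExteriorAlgebra r) ∨
      ∃ j, b.ExteriorAlgebra r ∈ ellipticPart q Φ (t j) := by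
  rcases hr with ⟨h1, m, hm, h2⟩ | ⟨h1, j, h2⟩
  · left
    refine ⟨?_, m, hm, ?_⟩
    · have := basis_mem b r
      rwa [h1] at this
    · rw [map_basis b (Φ ^ m) (fun i => lam i ^ m) (fun i => pow_apply_basis b hb m i),
        Finset.prod_pow, h2]
  · exact Or.inr ⟨j, mem_ellipticPart b hb h1 h2⟩

lemma matchE_mem {q : ℕ} {Φ : Module.End ℂ W} {lam : I → ℂ}
    (hb : ∀ i, Φ (b i) = lam i • b i) (t : ι → ℤ) (ν : ℕ) :
    ∀ s : Finset I, MatchE q t lam ν s →
      b.ExteriorAlgebra s ∈ Submodule.span ℂ (prodSet q Φ t ν) := by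
  induction ν with
  | zero =>
    intro s _
    exact Submodule.subset_span ⟨Fin.elim0, b.ExteriorAlgebra s, fun k => k.elim0, by simp⟩
  | succ ν ih =>
    rintro s ⟨r, hsub, hr, hm⟩
    have h1 := mul_mem_span (piece_class b hb hr) (ih _ hm)
    obtain ⟨c, hc, h2⟩ := basis_mul b r (s \ r) Finset.disjoint_sdiff
    rw [h2, Finset.union_sdiff_of_subset hsub] at h1
    have h3 := Submodule.smul_mem _ c⁻¹ h1
    rwa [smul_smul, inv_mul_cancel₀ hc, one_smul] at h3

lemma span_le_matchE {q : ℕ} {Φ : Module.End ℂ W} {lam : I → ℂ}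
    (hb : ∀ i, Φ (b i) = lam i • b i) (t : ι → ℤ) (ν : ℕ) :
    Submodule.span ℂ (prodSet q Φ t ν) ≤
      Submodule.span ℂ (b.ExteriorAlgebra '' {s | MatchE q t lam ν s}) := by
  have hmul : ∀ (ν : ℕ) (d x : ExteriorAlgebra ℂ W),
      (IsDivisorClass q Φ d ∨ ∃ j, d ∈ ellipticPart q Φ (t j)) →
      x ∈ Submodule.span ℂ (b.ExteriorAlgebra '' {s | MatchE q t lam ν s}) →
      d * x ∈ Submodule.span ℂ (b.ExteriorAlgebra '' {s | MatchE q t lam (ν + 1) s}) := by
    intro ν d x hd hx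
    have hd3 : d ∈ Submodule.span ℂ (b.ExteriorAlgebra '' {s | IsPiece q t lam s}) := by
      rcases hd with hd | ⟨j, hd⟩
      · exact divisor_mem b hb t hd
      · exact ellipticPart_le b hb t j hd
    clear hd
    induction hd3 using Submodule.span_induction with
    | mem d hd =>
      obtain ⟨r, hr, rfl⟩ := hd
      induction hx using Submodule.span_induction with
      | mem x hx =>
        obtain ⟨s, hsm, rfl⟩ := hx
        by_cases hdis : Disjoint r s
        · obtain ⟨e, he, h3⟩ := basis_mul b r s hdis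
          rw [h3]
          exact Submodule.smul_mem _ _ (Submodule.subset_span ⟨_, matchE_union hsm hr hdis, rfl⟩)
        · rw [basis_mul_zero b _ _ hdis]
          exact Submodule.zero_mem _
      | zero => rw [mul_zero]; exact Submodule.zero_mem _
      | add x y _ _ hx hy => rw [mul_add]; exact Submodule.add_mem _ hx hy
      | smul c x _ hx => rw [mul_smul_comm]; exact Submodule.smul_mem _ c hx
    | zero => rw [zero_mul]; exact Submodule.zero_mem _
    | add x y _ _ hx hy => rw [add_mul]; exact Submodule.add_mem _ hx hy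
    | smul c x _ hx => rw [smul_mul_assoc]; exact Submodule.smul_mem _ c hx
  refine Submodule.span_le.2 ?_
  rintro _ ⟨d, w, hd, rfl⟩
  induction ν with
  | zero =>
    have h1 : w ∈ Submodule.span ℂ (Set.range b.ExteriorAlgebra) := by
      rw [b.ExteriorAlgebra.span_eq]; trivial
    have h2 : (List.ofFn d).prod * w = w := by simp
    rw [h2]
    refine Submodule.span_mono ?_ h1
    rintro _ ⟨s, rfl⟩
    exact ⟨s, trivial, rfl⟩
  | succ ν ih =>
    rw [List.ofFn_succ, List.prod_cons, mul_assoc]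
    exact hmul ν (d 0) _ (hd 0) (ih (fun k => d k.succ) (fun k => hd k.succ))

/-- The coniveau in terms of monomials. -/
lemma ellipticConiveau_eq {q : ℕ} {Φ : Module.End ℂ W} {lam : I → ℂ}
    (hb : ∀ i, Φ (b i) = lam i • b i) (t : ι → ℤ) (i ν : ℕ) :
    ellipticConiveau q Φ t i ν =
      Submodule.span ℂ (b.ExteriorAlgebra '' {s | s.card = i ∧ MatchE q t lam ν s}) := by
  apply le_antisymm
  · rintro x ⟨h1, h2⟩
    have h3 := mem_span_of_mem_pow b h1
    have h4 := span_le_matchE b hb t ν h2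
    rw [Basis.mem_span_image] at h3 h4 ⊢
    exact fun s hs => ⟨h3 hs, h4 hs⟩
  · refine Submodule.span_le.2 ?_
    rintro _ ⟨s, ⟨rfl, h2⟩, rfl⟩
    exact ⟨basis_mem b s, matchE_mem b hb t ν s h2⟩

end Pool.Agent.Helper48.OF
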