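import Pool.Agent.Helper48.OF.Cover

/-!
# The number of eigenvalues in a prime over `q`
-/

set_option autoImplicit false

namespace Pool.Agent.Helper48.OF

open Module Polynomial Pool.Agent.Helper71.AA Pool.Agent.Helper71.AA.Div

/-- A common exponent for supersingular eigenvalues. -/
lemma ss_common {I : Type*} [DecidableEq I] {q : ℕ} {lam : I → ℂ} (R : Finset I)
    (hR : ∀ i ∈ R, Ss q (lam i)) :
    ∃ m : ℕ, 0 < m ∧ (∏ i ∈ R, lam i) ^ (2 * m) = (q : ℂ) ^ (m * R.card) := by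
  induction R using Finset.induction_on with
  | empty => exact ⟨1, one_pos, by simp⟩
  | insert a R ha ih =>
    obtain ⟨m, hm, h⟩ := ih fun i hi => hR i (Finset.mem_insert_of_mem hi)
    obtain ⟨n, hn, h'⟩ := hR a (Finset.mem_insert_self a R)
    refine ⟨m * n, Nat.mul_pos hm hn, ?_⟩
    rw [Finset.prod_insert ha, Finset.card_insert_of_notMem ha]
    calc (lam a * ∏ i ∈ R, lam i) ^ (2 * (m * n))
        = (lam a ^ (2 * n)) ^ m * ((∏ i ∈ R, lam i) ^ (2 * m)) ^ n := by
          rw [mul_pow, ← pow_mul, ← pow_mul]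
          congr 2 <;> ring
      _ = ((q : ℂ) ^ n) ^ m * ((q : ℂ) ^ (m * R.card)) ^ n := by rw [h, h']
      _ = (q : ℂ) ^ (m * n * (R.card + 1)) := by
          rw [← pow_mul, ← pow_mul, ← pow_add]
          congr 1
          ring

/-- The valuation inequality at a prime over `q`: `T` are ordinary eigenvalues, `c` those of them
in the prime, `R` supersingular ones. -/
lemma two_mul_le {I : Type*} [DecidableEq I] {q : ℕ} (hq0 : (q : ℂ) ≠ 0) {lam : I → ℂ}
    {T c R s : Finset I} (hTc : c ⊆ T) {J : Ideal (integralClosure ℤ ℂ)} (hJ : J.IsPrime)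
    (hq : (q : integralClosure ℤ ℂ) ∈ J) (hT : ∀ i ∈ T, IsIntegral ℤ (lam i))
    (hconj : ∀ i ∈ T, IsIntegral ℤ ((starRingEnd ℂ) (lam i)))
    (hmul : ∀ i ∈ T, lam i * (starRingEnd ℂ) (lam i) = q)
    (hnot : ∀ i ∈ T, i ∉ c → ¬ In J (lam i)) (hR : ∀ i ∈ R, Ss q (lam i))
    (hprod : (∏ i ∈ T, lam i) * ∏ i ∈ R, lam i = ∏ i ∈ s, lam i) {ν : ℕ}
    (hs : IsIntegral ℤ ((∏ i ∈ s, lam i) / (q : ℂ) ^ ν)) :
    2 * ν ≤ 2 * c.card + R.card := by
  classical
  by_contra hlt
  push Not at hlt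
  obtain ⟨m, hm, hRm⟩ := ss_common R hR
  -- the units
  let A : (integralClosure ℤ ℂ) := ∏ i ∈ (T \ c).attach,
    ⟨lam i.1, hT i.1 (Finset.mem_sdiff.1 i.2).1⟩
  have hA0 : (A : ℂ) = ∏ i ∈ T \ c, lam i := by
    simp only [A]
    push_cast
    exact Finset.prod_attach _ lam
  have hA : A ∉ J := by
    intro hA
    rw [hJ.prod_mem_iff] at hA
    obtain ⟨i, -, hiJ⟩ := hA
    have hi := Finset.mem_sdiff.1 i.2
    exact hnot i.1 hi.1 hi.2 ⟨_, hiJ⟩
  let C : (integralClosure ℤ ℂ) := ∏ i ∈ c.attach,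
    ⟨(starRingEnd ℂ) (lam i.1), hconj i.1 (hTc i.2)⟩
  have hC0 : (C : ℂ) = ∏ i ∈ c, (starRingEnd ℂ) (lam i) := by
    simp only [C]
    push_cast
    exact Finset.prod_attach c (fun i => (starRingEnd ℂ) (lam i))
  let y : (integralClosure ℤ ℂ) := ⟨_, hs⟩
  have hy : (y : ℂ) * (q : ℂ) ^ ν = ∏ i ∈ s, lam i := by
    change (∏ i ∈ s, lam i) / (q : ℂ) ^ ν * (q : ℂ) ^ ν = _
    rw [div_mul_cancel₀ _ (pow_ne_zero _ hq0)]
  have hc : (∏ i ∈ c, lam i) * (C : ℂ) = (q : ℂ) ^ c.card := by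
    rw [hC0, ← Finset.prod_mul_distrib, Finset.prod_congr rfl (fun i hi => hmul i (hTc hi)),
      Finset.prod_const]
  have hsplit : ∏ i ∈ T, lam i = (∏ i ∈ c, lam i) * A := by
    rw [hA0, mul_comm, Finset.prod_sdiff hTc]
  have hexp : m * (2 * c.card + R.card) + 1 ≤ 2 * m * ν := by
    have h1 : m * (2 * c.card + R.card + 1) ≤ m * (2 * ν) := Nat.mul_le_mul_left _ hlt
    have h2 : m * (2 * ν) = 2 * m * ν := by ring
    have h3 : m * (2 * c.card + R.card + 1) = m * (2 * c.card + R.card) + m := by ring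
    omega
  have h1 : A ^ (2 * m) = (q : (integralClosure ℤ ℂ)) ^ (2 * m * ν - m * (2 * c.card + R.card)) *
      (y ^ (2 * m) * C ^ (2 * m)) := by
    apply Subtype.ext
    push_cast
    have h2 : (q : ℂ) ^ (m * (2 * c.card + R.card)) ≠ 0 := pow_ne_zero _ hq0
    apply mul_right_cancel₀ h2
    calc (A : ℂ) ^ (2 * m) * (q : ℂ) ^ (m * (2 * c.card + R.card))
        = (A : ℂ) ^ (2 * m) * ((q : ℂ) ^ c.card) ^ (2 * m) * (q : ℂ) ^ (m * R.card) := by
          rw [mul_assoc, ← pow_mul, ← pow_add]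
          congr 2
          ring
      _ = (((∏ i ∈ c, lam i) * A) * ∏ i ∈ R, lam i) ^ (2 * m) * (C : ℂ) ^ (2 * m) := by
          rw [← hc, ← hRm]; ring
      _ = ((y : ℂ) * (q : ℂ) ^ ν) ^ (2 * m) * (C : ℂ) ^ (2 * m) := by
          rw [← hsplit, hprod, hy]
      _ = (q : ℂ) ^ (2 * m * ν) * ((y : ℂ) ^ (2 * m) * (C : ℂ) ^ (2 * m)) := by ring
      _ = (q : ℂ) ^ (2 * m * ν - m * (2 * c.card + R.card)) *
            (q : ℂ) ^ (m * (2 * c.card + R.card)) * ((y : ℂ) ^ (2 * m) * (C : ℂ) ^ (2 * m)) := by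
          rw [← pow_add, Nat.sub_add_cancel (by omega)]
      _ = _ := by ring
  apply hA
  refine hJ.mem_of_pow_mem (2 * m) ?_
  rw [h1]
  exact J.mul_mem_right _ (J.pow_mem_of_mem hq _ (by omega))

section

variable {I : Type*} [LinearOrder I] {ι : Type*} {q : ℕ} {t : ι → ℤ} {lam : I → ℂ}

lemma matchE_subset (ν : ℕ) : ∀ {s s' : Finset I}, s ⊆ s' → MatchE q t lam ν s →
    MatchE q t lam ν s' := by
  induction ν with
  | zero => intro _ _ _ _; trivial
  | succ ν ih =>
    rintro s s' hss ⟨r, hr, hp, hm⟩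
    exact ⟨r, hr.trans hss, hp, ih (Finset.sdiff_subset_sdiff hss le_rfl) hm⟩

lemma matchE_add (a b : ℕ) : ∀ {s s' : Finset I}, Disjoint s s' → MatchE q t lam a s →
    MatchE q t lam b s' → MatchE q t lam (a + b) (s ∪ s') := by
  induction a with
  | zero =>
    intro s s' _ _ hb
    rw [Nat.zero_add]
    exact matchE_subset b Finset.subset_union_right hb
  | succ a ih =>
    rintro s s' hd ⟨r, hr, hp, hm⟩ hb
    rw [show a + 1 + b = a + b + 1 by ring]
    refine ⟨r, hr.trans Finset.subset_union_left, hp, ?_⟩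
    have h1 : (s ∪ s') \ r = (s \ r) ∪ s' := by
      rw [Finset.union_sdiff_distrib, Finset.sdiff_eq_self_of_disjoint
        (Finset.disjoint_of_subset_left hr hd).symm]
    rw [h1]
    exact ih (Finset.disjoint_of_subset_left Finset.sdiff_subset hd) hm hb

lemma matchE_mono {a b : ℕ} (hab : a ≤ b) : ∀ {s : Finset I}, MatchE q t lam b s →
    MatchE q t lam a s := by
  induction a generalizing b with
  | zero => intro _ _; trivial
  | succ a ih =>
    intro s h
    obtain ⟨b, rfl⟩ : ∃ b', b = b' + 1 := ⟨b - 1, by omega⟩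
    obtain ⟨r, hr, hp, hm⟩ := h
    exact ⟨r, hr, hp, ih (by omega) hm⟩

lemma matchE_biUnion {κ : Type*} [DecidableEq κ] (K : Finset κ) (n : κ → ℕ) (T : κ → Finset I)
    (hd : ∀ k ∈ K, ∀ l ∈ K, k ≠ l → Disjoint (T k) (T l))
    (hm : ∀ k ∈ K, MatchE q t lam (n k) (T k)) :
    MatchE q t lam (∑ k ∈ K, n k) (K.biUnion T) := by
  induction K using Finset.induction_on with
  | empty => simp only [Finset.sum_empty]; trivial
  | insert a K ha ih =>
    rw [Finset.sum_insert ha, Finset.biUnion_insert]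
    refine matchE_add _ _ ?_ (hm a (Finset.mem_insert_self a K)) (ih ?_ ?_)
    · rw [Finset.disjoint_biUnion_right]
      intro k hk
      exact hd a (Finset.mem_insert_self a K) k (Finset.mem_insert_of_mem hk)
        (fun h => ha (h ▸ hk))
    · exact fun k hk l hl => hd k (Finset.mem_insert_of_mem hk) l (Finset.mem_insert_of_mem hl)
    · exact fun k hk => hm k (Finset.mem_insert_of_mem hk)

/-- Any two supersingular eigenvalues are a pair. -/
lemma matchE_ss (ν : ℕ) : ∀ {R : Finset I}, (∀ i ∈ R, Ss q (lam i)) → 2 * ν ≤ R.card →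
    MatchE q t lam ν R := by
  induction ν with
  | zero => intro _ _ _; trivial
  | succ ν ih =>
    intro R hR hcard
    obtain ⟨a, ha, b, hb, hab⟩ := Finset.one_lt_card.1 (by omega : 1 < R.card)
    obtain ⟨m, hm, hma⟩ := hR a ha
    obtain ⟨n, hn, hnb⟩ := hR b hb
    have hsub : ({a, b} : Finset I) ⊆ R := by
      intro x hx
      simp only [Finset.mem_insert, Finset.mem_singleton] at hx
      rcases hx with rfl | rfl
      · exact ha
      · exact hb
    refine ⟨{a, b}, hsub, Or.inl ⟨Finset.card_pair hab, 2 * (m * n), by positivity, ?_⟩,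
      ih (fun i hi => hR i (Finset.mem_sdiff.1 hi).1) ?_⟩
    · rw [Finset.prod_pair hab]
      calc (lam a * lam b) ^ (2 * (m * n))
          = (lam a ^ (2 * m)) ^ n * (lam b ^ (2 * n)) ^ m := by ring
        _ = (q : ℂ) ^ (2 * (m * n)) := by rw [hma, hnb]; ring
    · rw [Finset.card_sdiff_of_subset hsub, Finset.card_pair hab]
      omega

end

end Pool.Agent.Helper48.OF
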