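import Pool.Agent.Helper71.AA.Defs

/-!
# Divisor classes and elliptic classes on abelian varieties over a finite field
-/

set_option autoImplicit false

namespace Pool.Agent.Helper48.OF

open Module Polynomial Pool.Agent.Helper71.AA

variable {W : Type*} [AddCommGroup W] [Module ℂ W]

/-- The classes in `Λ³ W` killed by `F² - t q F + q³`, where `F` is the Frobenius on `Λ³ W`: the
part of `H³` on which Frobenius acts like `q` times the Frobenius of an elliptic curve over
`𝔽_q` of trace `t`, with characteristic polynomial `T² - t T + q`. -/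
noncomputable def ellipticPart (q : ℕ) (Φ : Module.End ℂ W) (t : ℤ) :
    Submodule ℂ (ExteriorAlgebra ℂ W) :=
  ⋀[ℂ]^3 W ⊓ LinearMap.ker ((ExteriorAlgebra.map Φ).toLinearMap ∘ₗ
    (ExteriorAlgebra.map Φ).toLinearMap - ((t : ℂ) * q) • (ExteriorAlgebra.map Φ).toLinearMap +
    (q : ℂ) ^ 3 • LinearMap.id)

/-- The elements of `Λⁱ W` in the span of the products `x₁ ⋯ x_ν w` where each `x_k` is a divisor
class or in the elliptic part for one of the traces `t j`. -/
noncomputable def ellipticConiveau {ι : Type*} (q : ℕ) (Φ : Module.End ℂ W) (t : ι → ℤ)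
    (i ν : ℕ) : Submodule ℂ (ExteriorAlgebra ℂ W) :=
  ⋀[ℂ]^i W ⊓ Submodule.span ℂ {x | ∃ (d : Fin ν → ExteriorAlgebra ℂ W)
    (w : ExteriorAlgebra ℂ W), (∀ k, IsDivisorClass q Φ (d k) ∨
      ∃ j, d k ∈ ellipticPart q Φ (t j)) ∧ x = (List.ofFn d).prod * w}

/-- A supersingular eigenvalue: `√q` times a root of unity. -/
def Ss (q : ℕ) (z : ℂ) : Prop := ∃ m : ℕ, 0 < m ∧ z ^ (2 * m) = (q : ℂ) ^ m

/-- The polynomials `P k` are independent over `q`: for all prime ideals `J k` over `q` of the ring
of algebraic integers there is one prime ideal `I` over `q` which contains the same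
roots of `P k` as `J k`, for each `k`. This holds if the splitting fields of the `P k` are linearly
disjoint over `ℚ`, as the Galois group of the compositum is then the product of their
Galois groups, and these are transitive on the primes over the prime divisor of `q`. -/
def Independent {r : ℕ} (q : ℕ) (P : Fin r → ℤ[X]) : Prop :=
  ∀ J : Fin r → Ideal (integralClosure ℤ ℂ),
    (∀ k, (J k).IsPrime ∧ (q : integralClosure ℤ ℂ) ∈ J k) →
    ∃ I : Ideal (integralClosure ℤ ℂ), I.IsPrime ∧ (q : integralClosure ℤ ℂ) ∈ I ∧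
      ∀ k, ∀ z : integralClosure ℤ ℂ, aeval z (P k) = 0 → (z ∈ I ↔ z ∈ J k)

end Pool.Agent.Helper48.OF
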