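import Pool.Agent.Helper48.OF.Count

/-!
# The Galois coniveau of products of ordinary abelian varieties of dimension at most three
-/

set_option autoImplicit false

namespace Pool.Agent.Helper48.OF

open Module Polynomial Pool.Agent.Helper71.AA Pool.Agent.Helper71.AA.Div

section

variable {q g : ℕ} {P : ℤ[X]} {α : Fin g → ℂ} (hO : Ord q g P α)

include hO

lemma Ord.rt_of_root {z : ℂ} (hz : aeval z P = 0) : Rt α z := by
  have h1 : (P.map (Int.castRingHom ℂ)).eval z = 0 := by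
    rw [eval_map]
    exact hz
  rw [hO.roots, eval_prod, Finset.prod_eq_zero_iff] at h1
  obtain ⟨j, -, hj⟩ := h1
  rw [eval_mul, eval_sub, eval_sub, eval_X, eval_C, eval_C, mul_eq_zero, sub_eq_zero,
    sub_eq_zero] at hj
  exact ⟨j, hj⟩

lemma Ord.aeval_eq {z : ℂ} (hz : Rt α z) (h : IsIntegral ℤ z) :
    aeval (⟨z, h⟩ : integralClosure ℤ ℂ) P = 0 := by
  apply Subtype.ext
  have h1 : aeval z P = 0 := by
    have := hO.isRoot hz
    rw [eval_map] at this
    exact this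
  have h2 := Polynomial.aeval_algebraMap_apply ℂ (⟨z, h⟩ : integralClosure ℤ ℂ) P
  have h3 : (algebraMap (integralClosure ℤ ℂ) ℂ) ⟨z, h⟩ = z := rfl
  rw [h3, h1] at h2
  exact h2.symm

end

/-- Divisible products contain enough pieces. -/
lemma matchE_of_integral {q r : ℕ} (hq2 : 2 ≤ q) {g : Fin r → ℕ} {P : Fin r → ℤ[X]}
    (hg : ∀ k, g k ≤ 3 ∨ IsCovered q (P k)) {α : ∀ k, Fin (g k) → ℂ} (hO : ∀ k, Ord q (g k) (P k) (α k))
    (hI : Independent q P) {t : Fin r → ℤ}
    (ht : ∀ k, ∀ z w x : ℂ, Rt (α k) z → Rt (α k) w → Rt (α k) x →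
      z ≠ w → z ≠ x → w ≠ x → (∀ m : ℕ, 0 < m → (z * w) ^ m ≠ (q : ℂ) ^ m) →
      (∀ m : ℕ, 0 < m → (z * x) ^ m ≠ (q : ℂ) ^ m) →
      (∀ m : ℕ, 0 < m → (w * x) ^ m ≠ (q : ℂ) ^ m) → g k = 3 →
      IsIntegral ℤ (z * w * x / q) →
      (z * w * x) ^ 2 - t k * q * (z * w * x) + (q : ℂ) ^ 3 = 0)
    {I : Type*} [LinearOrder I] {lam : I → ℂ}
    (hlam : ∀ i, (∃ k, Rt (α k) (lam i)) ∨ Ss q (lam i)) (ν : ℕ) (s : Finset I)
    (hs : IsIntegral ℤ ((∏ i ∈ s, lam i) / (q : ℂ) ^ ν)) : MatchE q t lam ν s := by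
  classical
  have hq0 : (q : ℂ) ≠ 0 := by
    have : q ≠ 0 := by omega
    exact_mod_cast this
  -- the colour of an eigenvalue
  have hcol : ∀ i, ∃ c : Option (Fin r), (∀ k, c = some k → Rt (α k) (lam i)) ∧
      (c = none → Ss q (lam i)) := by
    intro i
    rcases hlam i with ⟨k, hk⟩ | h
    · exact ⟨some k, fun l hl => by obtain rfl := Option.some.inj hl; exact hk,
        fun h => absurd h (by simp)⟩
    · exact ⟨none, fun l hl => absurd hl (by simp), fun _ => h⟩
  choose c hc1 hc2 using hcol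
  let T : Fin r → Finset I := fun k => s.filter (fun i => c i = some k)
  let R : Finset I := s.filter (fun i => c i = none)
  let cnt : Fin r → Ideal (integralClosure ℤ ℂ) → Finset I :=
    fun k J => (T k).filter (fun i => In J (lam i))
  have hT : ∀ k, ∀ i ∈ T k, Rt (α k) (lam i) := fun k i hi =>
    hc1 i k (Finset.mem_filter.1 hi).2
  have hR : ∀ i ∈ R, Ss q (lam i) := fun i hi => hc2 i (Finset.mem_filter.1 hi).2
  -- the minimal places
  have hmin : ∀ k, ∃ J : Ideal (integralClosure ℤ ℂ), (J.IsPrime ∧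
      (q : integralClosure ℤ ℂ) ∈ J) ∧ ∀ J' : Ideal (integralClosure ℤ ℂ), J'.IsPrime →
      (q : integralClosure ℤ ℂ) ∈ J' → (cnt k J).card ≤ (cnt k J').card := by
    intro k
    let A : Set ℕ := {n | ∃ J : Ideal (integralClosure ℤ ℂ), (J.IsPrime ∧
      (q : integralClosure ℤ ℂ) ∈ J) ∧ (cnt k J).card = n}
    have hA : A.Nonempty := by
      obtain ⟨J, hJ, hq⟩ := exists_prime hq2
      exact ⟨_, J, ⟨hJ, hq⟩, rfl⟩
    obtain ⟨J, hJ, hn⟩ := Nat.sInf_mem hA
    refine ⟨J, hJ, fun J' hJ' hq' => ?_⟩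
    rw [hn]
    exact Nat.sInf_le ⟨J', ⟨hJ', hq'⟩, rfl⟩
  choose J hJ hJmin using hmin
  obtain ⟨J₀, hJ₀, hq₀, hag⟩ := hI J hJ
  have hcnt : ∀ k, cnt k J₀ = cnt k (J k) := by
    intro k
    refine Finset.filter_congr fun i hi => ?_
    have hrt := hT k i hi
    constructor
    · rintro ⟨h, h'⟩
      exact ⟨h, (hag k ⟨lam i, h⟩ ((hO k).aeval_eq hrt h)).1 h'⟩
    · rintro ⟨h, h'⟩
      exact ⟨h, (hag k ⟨lam i, h⟩ ((hO k).aeval_eq hrt h)).2 h'⟩
  -- the pieces of the colours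
  have hmatch : ∀ k, MatchE q t lam (cnt k (J k)).card (T k) := by
    intro k
    refine matchE_of_cover (hg k) (hO k) (ht k) _ _ (hT k) ?_
    intro J' hJ' hq'
    obtain ⟨d, hd, hdc⟩ := Finset.exists_subset_card_eq (hJmin k J' hJ' hq')
    refine ⟨d, fun i hi => (Finset.mem_filter.1 (hd hi)).1, hdc, fun i hi =>
      (Finset.mem_filter.1 (hd hi)).2⟩
  have hdisj : ∀ k ∈ (Finset.univ : Finset (Fin r)), ∀ l ∈ (Finset.univ : Finset (Fin r)),
      k ≠ l → Disjoint (T k) (T l) := by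
    intro k _ l _ hkl
    rw [Finset.disjoint_left]
    intro i hi hi'
    have h1 := (Finset.mem_filter.1 hi).2
    have h2 := (Finset.mem_filter.1 hi').2
    exact hkl (Option.some.inj (h1.symm.trans h2))
  have hall := matchE_biUnion Finset.univ (fun k => (cnt k (J k)).card) T hdisj
    (fun k _ => hmatch k)
  have hRm : MatchE q t lam (R.card / 2) R := matchE_ss _ hR (by omega)
  have hdR : Disjoint (Finset.univ.biUnion T) R := by
    rw [Finset.disjoint_biUnion_left]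
    intro k _
    rw [Finset.disjoint_left]
    intro i hi hi'
    have h1 := (Finset.mem_filter.1 hi).2
    have h2 := (Finset.mem_filter.1 hi').2
    rw [h1] at h2
    exact absurd h2 (by simp)
  have hu : Finset.univ.biUnion T ∪ R = s := by
    ext i
    simp only [Finset.mem_union, Finset.mem_biUnion, Finset.mem_univ, true_and]
    constructor
    · rintro (⟨k, hk⟩ | h)
      · exact (Finset.mem_filter.1 hk).1
      · exact (Finset.mem_filter.1 h).1
    · intro hi
      cases hci : c i with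
      | none => exact Or.inr (Finset.mem_filter.2 ⟨hi, hci⟩)
      | some k => exact Or.inl ⟨k, Finset.mem_filter.2 ⟨hi, hci⟩⟩
  have htot := matchE_add _ _ hdR hall hRm
  rw [hu] at htot
  refine matchE_mono ?_ htot
  -- the inequality
  have hcards : ((Finset.univ.biUnion T).filter (fun i => In J₀ (lam i))).card =
      ∑ k, (cnt k (J k)).card := by
    rw [Finset.filter_biUnion, Finset.card_biUnion]
    · exact Finset.sum_congr rfl fun k _ => by rw [← hcnt k]
    · intro k hk l hl hkl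
      exact Finset.disjoint_filter_filter (hdisj k hk l hl hkl)
  have hTr : ∀ i ∈ Finset.univ.biUnion T, ∃ k, Rt (α k) (lam i) := by
    intro i hi
    obtain ⟨k, -, hk⟩ := Finset.mem_biUnion.1 hi
    exact ⟨k, hT k i hk⟩
  have hineq := two_mul_le (T := Finset.univ.biUnion T)
    (c := (Finset.univ.biUnion T).filter (fun i => In J₀ (lam i))) (R := R) (s := s) hq0
    (Finset.filter_subset _ _) hJ₀ hq₀
    (fun i hi => by obtain ⟨k, hk⟩ := hTr i hi; exact (hO k).integral hk)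
    (fun i hi => by obtain ⟨k, hk⟩ := hTr i hi; exact (hO k).integral hk.conj)
    (fun i hi => by obtain ⟨k, hk⟩ := hTr i hi; exact (hO k).mul_conj hk)
    (fun i hi hni h => hni (Finset.mem_filter.2 ⟨hi, h⟩)) hR
    (by rw [← Finset.prod_union hdR, hu]) hs
  rw [hcards] at hineq
  omega

/-- **The theorem.** -/
theorem main (q r : ℕ) (hq : IsPrimePow q) (g : Fin r → ℕ) (P : Fin r → ℤ[X])
    (hP : ∀ k, IsOrdinary q (g k) (P k)) (hg : ∀ k, g k ≤ 3 ∨ DivisorsSuffice q (P k))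
    (hI : Independent q P) :
    ∃ t : Fin r → ℤ, (∀ k, t k ^ 2 ≤ 4 * (q : ℤ)) ∧
      ∀ (V : Type) [AddCommGroup V] [Module ℂ V] [FiniteDimensional ℂ V] (F : Module.End ℂ V),
      F.IsSemisimple → (∀ β : ℂ, F.HasEigenvalue β → (∃ k, aeval β (P k) = 0) ∨ Ss q β) →
      ∀ i ν : ℕ, 2 * ν ≤ i → galoisConiveau q F i ν = ellipticConiveau q F t i ν := by
  classical
  have hroots := fun k => (hP k).1.roots
  choose α hα hα2 using hroots
  have hO : ∀ k, Ord q (g k) (P k) (α k) := fun k => ⟨hq.two_le, hα k, hα2 k, (hP k).2⟩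
  have htr := fun k => exists_trace hq (hO k)
  choose t ht1 ht2 using htr
  refine ⟨t, ht1, ?_⟩
  intro V _ _ _ F hF hroot i ν hν
  have hq2 := hq.two_le
  have hq0 : (q : ℂ) ≠ 0 := by
    have : q ≠ 0 := by omega
    exact_mod_cast this
  obtain ⟨d, b, lam, hb⟩ := eigenbasis F hF
  have hlam : ∀ k, (∃ l, Rt (α l) (lam k)) ∨ Ss q (lam k) := by
    intro k
    rcases hroot _ (hasEigenvalue_of_basis F b lam hb k) with ⟨l, hl⟩ | h
    · exact Or.inl ⟨l, (hO l).rt_of_root hl⟩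
    · exact Or.inr h
  have hconj : ∀ k, lam k * (starRingEnd ℂ) (lam k) = q := fun k =>
    (hlam k).elim (fun ⟨l, h⟩ => (hO l).mul_conj h) ss_conj
  have hint : ∀ k, IsIntegral ℤ (lam k) := fun k =>
    (hlam k).elim (fun ⟨l, h⟩ => (hO l).integral h) ss_integral
  rw [galois_eq b hq0 hb hconj i ν hν, ellipticConiveau_eq b hb t i ν]
  apply le_antisymm
  · refine Submodule.span_mono ?_
    rintro _ ⟨s, ⟨hs1, hs2⟩, rfl⟩
    exact ⟨s, ⟨hs1, matchE_of_integral hq2
      (fun k => (hg k).imp_right (suffice_iff hq2 (hP k).1).1) hO hI ht2 hlam ν s hs2⟩, rfl⟩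
  · refine Submodule.span_mono ?_
    rintro _ ⟨s, ⟨hs1, hs2⟩, rfl⟩
    exact ⟨s, ⟨hs1, integral_of_matchE hq0 hint ν s hs2⟩, rfl⟩

end Pool.Agent.Helper48.OF
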